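import Mathlib
import Pool.Agent.Work.MP_91a774_al.Compute

set_option autoImplicit false

namespace Pool.Agent.Results.MP_91a774_al.MembershipUndecidable

open Pool.Agent.Work.MP_91a774_al (gen PM GG Amb)

/-- The element of `G` represented by a word over `X ∪ X⁻¹`: the letter `(i, true)` stands for
`X i` and the letter `(i, false)` for `(X i)⁻¹`. -/
def value {G : Type} [Group G] {k : ℕ} (X : Fin k → G) (w : List (Fin k × Bool)) : G :=
  (w.map fun p => if p.2 then X p.1 else (X p.1)⁻¹).prod

/-- Right reversible: `aP ∩ bP ≠ ∅` for all `a, b`. -/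
def RightReversible (P : Type) [Monoid P] : Prop := ∀ a b : P, ∃ c d : P, a * c = b * d

/-- Left reversible: `Pa ∩ Pb ≠ ∅` for all `a, b`. -/
def LeftReversible (P : Type) [Monoid P] : Prop := ∀ a b : P, ∃ c d : P, c * a = d * b

/-- `G` is, through the embedding `ι`, the group of right quotients `P P⁻¹` of `P`. -/
def IsGroupOfRightQuotients {P G : Type} [Monoid P] [Group G] (ι : P →* G) : Prop :=
  Function.Injective ι ∧ ∀ g : G, ∃ p q : P, g = ι p * (ι q)⁻¹

/-- The word problem of `G` with respect to the finite family `X` of elements of `P` is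
decidable. -/
def WordProblemDecidable {P G : Type} [Monoid P] [Group G] (ι : P →* G) {k : ℕ}
    (X : Fin k → P) : Prop :=
  ComputablePred fun w : List (Fin k × Bool) => value (fun i => ι (X i)) w = 1

/-- The membership problem of `P` in `G` with respect to the finite family `X` of elements of `P`
is decidable. -/
def MembershipDecidable {P G : Type} [Monoid P] [Group G] (ι : P →* G) {k : ℕ}
    (X : Fin k → P) : Prop :=
  ComputablePred fun w : List (Fin k × Bool) => value (fun i => ι (X i)) w ∈ Set.range ι

section Words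

variable {G : Type} [Group G]

lemma value_append {k : ℕ} (X : Fin k → G) (u v : List (Fin k × Bool)) :
    value X (u ++ v) = value X u * value X v := by
  simp [value]

/-- the formal inverse of a word -/
def winv {k : ℕ} (w : List (Fin k × Bool)) : List (Fin k × Bool) :=
  (w.map fun p => (p.1, !p.2)).reverse

lemma value_winv {k : ℕ} (X : Fin k → G) (w : List (Fin k × Bool)) :
    value X (winv w) = (value X w)⁻¹ := by
  induction w with
  | nil => simp [winv, value]
  | cons p w ih =>
    have h1 : winv (p :: w) = winv w ++ [(p.1, !p.2)] := by simp [winv]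
    have h2 : value X (p :: w) = (if p.2 then X p.1 else (X p.1)⁻¹) * value X w := rfl
    rw [h1, value_append, ih, h2, mul_inv_rev]
    congr 1
    obtain ⟨i, b⟩ := p
    cases b <;> simp [value]

lemma translate {k m : ℕ} (Y : Fin k → G) (X : Fin m → G) (hX : ∀ g, ∃ u, value X u = g) :
    ∃ s : Fin k × Bool → List (Fin m × Bool), ∀ w, value Y w = value X (w.flatMap s) := by
  choose u hu using hX
  refine ⟨fun p => if p.2 then u (Y p.1) else winv (u (Y p.1)), fun w => ?_⟩
  induction w with
  | nil => rfl
  | cons p w ih =>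
    have h2 : value Y (p :: w) = (if p.2 then Y p.1 else (Y p.1)⁻¹) * value Y w := rfl
    rw [h2, ih, List.flatMap_cons, value_append]
    congr 1
    obtain ⟨i, b⟩ := p
    cases b <;> simp [hu, value_winv]

lemma transfer {k m : ℕ} (Y : Fin k → G) (X : Fin m → G) (hX : ∀ g, ∃ u, value X u = g)
    (S : Set G) (h : ComputablePred fun w : List (Fin m × Bool) => value X w ∈ S) :
    ComputablePred fun w : List (Fin k × Bool) => value Y w ∈ S := by
  obtain ⟨s, hs⟩ := translate Y X hX
  obtain ⟨hd, hc⟩ := h
  have hfm : Primrec fun w : List (Fin k × Bool) => w.flatMap s := by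
    have hf : Primrec₂ fun (_ : List (Fin k × Bool)) (x : Fin k × Bool) => s x :=
      (Primrec.dom_finite s).comp Primrec.snd
    exact Primrec.list_flatMap Primrec.id hf
  have h2 : ComputablePred fun w : List (Fin k × Bool) => value X (w.flatMap s) ∈ S :=
    ⟨fun w => hd _, hc.comp hfm.to_comp⟩
  exact h2.of_eq fun w => by rw [hs]

lemma generates {P : Type} [Monoid P] (ι : P →* G) (hι : IsGroupOfRightQuotients ι) {k : ℕ}
    (X : Fin k → P) (hX : Submonoid.closure (Set.range X) = ⊤) (g : G) :
    ∃ u, value (fun i => ι (X i)) u = g := by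
  have h1 : ∀ p : P, ∃ u, value (fun i => ι (X i)) u = ι p := by
    intro p
    have hp : p ∈ Submonoid.closure (Set.range X) := by rw [hX]; trivial
    induction hp using Submonoid.closure_induction with
    | mem x hx =>
      obtain ⟨i, rfl⟩ := hx
      exact ⟨[(i, true)], by simp [value]⟩
    | one => exact ⟨[], by simp [value]⟩
    | mul x y _ _ hx hy =>
      obtain ⟨u, hu⟩ := hx
      obtain ⟨v, hv⟩ := hy
      exact ⟨u ++ v, by rw [value_append, hu, hv, map_mul]⟩
  obtain ⟨p, q, rfl⟩ := hι.2 g
  obtain ⟨u, hu⟩ := h1 p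
  obtain ⟨v, hv⟩ := h1 q
  exact ⟨u ++ winv v, by rw [value_append, value_winv, hu, hv]⟩

end Words

/-- There is a finitely generated cancellative monoid `P` which is right reversible (and also left
reversible) such that, for every finite generating family `X` of `P`, the group of right quotients
`G = P P⁻¹` has decidable word problem over `X`, while membership of `P` in `G` is undecidable. -/
theorem result : ∃ (P : Type) (_ : CancelMonoid P) (G : Type) (_ : Group G) (ι : P →* G),
    Monoid.FG P ∧ RightReversible P ∧ LeftReversible P ∧ IsGroupOfRightQuotients ι ∧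
    ∀ (k : ℕ) (X : Fin k → P), Submonoid.closure (Set.range X) = ⊤ →
      WordProblemDecidable ι X ∧ ¬ MembershipDecidable ι X := by
  let ι : PM →* GG := PM.subtype.codRestrict GG.toSubmonoid
    (fun p => Pool.Agent.Work.MP_91a774_al.PM_le_GG p.1 p.2)
  have hιval : ∀ p : PM, ((ι p : GG) : Amb) = (p : Amb) := fun p => rfl
  let inst : CancelMonoid PM :=
    Function.Injective.cancelMonoid (fun p : PM => (p : Amb)) Subtype.val_injective rfl
      (fun _ _ => rfl) (fun _ _ => rfl)
  have hquot : IsGroupOfRightQuotients ι := by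
    constructor
    · intro p q h
      apply Subtype.ext
      rw [← hιval, ← hιval, h]
    · rintro ⟨g, hg⟩
      obtain ⟨p, hp, q, hq, rfl⟩ := Pool.Agent.Work.MP_91a774_al.GG_quot g hg
      exact ⟨⟨p, hp⟩, ⟨q, hq⟩, Subtype.ext rfl⟩
  let X0 : Fin 8 → PM := fun j => ⟨gen j, Pool.Agent.Work.MP_91a774_al.gen_mem_PM j⟩
  have hX0 : Submonoid.closure (Set.range X0) = ⊤ := by
    rw [eq_top_iff]
    rintro ⟨p, hp⟩ _
    have hp' : p ∈ Submonoid.closure (Set.range gen) := hp
    have key : ∀ q ∈ Submonoid.closure (Set.range gen), ∃ h : q ∈ PM,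
        (⟨q, h⟩ : PM) ∈ Submonoid.closure (Set.range X0) := by
      intro q hq
      induction hq using Submonoid.closure_induction with
      | mem x hx =>
        obtain ⟨j, rfl⟩ := hx
        exact ⟨Pool.Agent.Work.MP_91a774_al.gen_mem_PM j, Submonoid.subset_closure ⟨j, rfl⟩⟩
      | one => exact ⟨PM.one_mem, Submonoid.one_mem _⟩
      | mul x y _ _ hx hy =>
        obtain ⟨h1, h1'⟩ := hx
        obtain ⟨h2, h2'⟩ := hy
        exact ⟨PM.mul_mem h1 h2, Submonoid.mul_mem _ h1' h2'⟩
    obtain ⟨_, h⟩ := key p hp'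
    exact h
  have hval : ∀ w : List (Fin 8 × Bool), ((value (fun i => ι (X0 i)) w : GG) : Amb) =
      Pool.Agent.Work.MP_91a774_al.wordVal gen w := by
    intro w
    have h1 := Pool.Agent.Work.MP_91a774_al.wordVal_map GG.subtype (fun i => ι (X0 i)) w
    exact h1
  have hgen0 := generates ι hquot X0 hX0
  refine ⟨PM, inst, GG, inferInstance, ι, ?_, ?_, ?_, hquot, ?_⟩
  · rw [Monoid.fg_iff]
    exact ⟨Set.range X0, hX0, Set.finite_range X0⟩
  · rintro ⟨a, ha⟩ ⟨b, hb⟩
    obtain ⟨c, hc, d, hd, h⟩ := Pool.Agent.Work.MP_91a774_al.right_rev a b ha hb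
    exact ⟨⟨c, hc⟩, ⟨d, hd⟩, Subtype.ext h⟩
  · rintro ⟨a, ha⟩ ⟨b, hb⟩
    obtain ⟨c, hc, d, hd, h⟩ := Pool.Agent.Work.MP_91a774_al.left_rev a b ha hb
    exact ⟨⟨c, hc⟩, ⟨d, hd⟩, Subtype.ext h⟩
  · intro k X hX
    have hgen := generates ι hquot X hX
    constructor
    · have h1 : ComputablePred fun w : List (Fin 8 × Bool) =>
          value (fun i => ι (X0 i)) w ∈ ({1} : Set GG) := by
        refine Pool.Agent.Work.MP_91a774_al.wp_computable.of_eq fun w => ?_
        rw [Set.mem_singleton_iff, ← hval]
        exact ⟨fun h => Subtype.ext h, fun h => by rw [h]; rfl⟩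
      exact transfer (fun i => ι (X i)) (fun i => ι (X0 i)) hgen0 _ h1
    · intro hcon
      have h2 := transfer (fun i => ι (X0 i)) (fun i => ι (X i)) hgen _ hcon
      apply Pool.Agent.Work.MP_91a774_al.membership_not_computable
      refine h2.of_eq fun w => ?_
      rw [← hval]
      constructor
      · rintro ⟨p, hp⟩
        rw [← hp, hιval]
        exact p.2
      · intro h
        exact ⟨⟨_, h⟩, Subtype.ext rfl⟩

end Pool.Agent.Results.MP_91a774_al.MembershipUndecidable
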